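import Mathlib
import Pool.Agent.R440.DC.K

/-!
Denominators and residues of the normalised alternating Apery-polynomial sums `s(n)`, `t(n)`.

Ideas of the proof.
* `s(n) = sum_{l<n} (-1)^l C(n-1,l) C(n+l,l) g_l(1/4)/(l+1)`, and `4^l g_l(1/4)/(l+1) = u_l` is an
  integer because of `4^l g_l(1/4) = sum_k C(2k,k) C(l+k,k) C(2l-2k,l-k)`.
* `t(n) = 4 (-1)^n P_n(1/2) P_{n-1}(1/2) (P_n(1/2) - P_{n-1}(1/2))` with Legendre polynomials.
* `u_l` is divisible by `3` for `l > 0`, and `sum_{l<p^a} u_l/4^l` is evaluated modulo `p` (and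
  modulo `9` for `p = 3`) with generating polynomials.
-/

set_option autoImplicit false

namespace Pool.Agent.Results.MP_dc1de5_nt.FullAnswer

open Finset Nat Pool.Agent.R440.DC

/-- the Apery polynomial `A_n(x)` -/
def aperyPoly (n : ℕ) (x : ℚ) : ℚ :=
  ∑ k ∈ range (n + 1), (n.choose k : ℚ) ^ 2 * ((n + k).choose k : ℚ) ^ 2 * x ^ k

/-- the polynomial `D_n(x)` -/
def dPoly (n : ℕ) (x : ℚ) : ℚ :=
  ∑ k ∈ range (n + 1), (n.choose k : ℚ) * ((n + k).choose k : ℚ) * x ^ k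

/-- `s(n) = n⁻² sum_{k<n} (2k+1) (-1)^k A_k(1/4)` -/
def s (n : ℕ) : ℚ := 1 / (n : ℚ) ^ 2 * ∑ k ∈ range n, (2 * (k : ℚ) + 1) * (-1) ^ k * aperyPoly k (1 / 4)

/-- `t(n) = n⁻² sum_{k<n} (2k+1) (-1)^k D_k(-1/4)^3` -/
def t (n : ℕ) : ℚ := 1 / (n : ℚ) ^ 2 * ∑ k ∈ range n, (2 * (k : ℚ) + 1) * (-1) ^ k * (dPoly k (-1 / 4)) ^ 3

/-- `r ≡ c (mod N)` for a rational number `r` with denominator prime to `N` -/
def CongrMod (N : ℕ) (r : ℚ) (c : ℤ) : Prop := Nat.Coprime r.den N ∧ (N : ℤ) ∣ r.num - c * r.den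

theorem s_eq (m : ℕ) : s (m + 1) = (SS m : ℚ) / 4 ^ m := by
  unfold s
  have h := SS_eq m
  have h1 : ∀ k ∈ range (m + 1), (2 * (k : ℚ) + 1) * (-1) ^ k * aperyPoly k (1 / 4)
      = (2 * (k : ℚ) + 1) * (-1) ^ k * Aq k := by
    intro k _
    congr 1
    unfold aperyPoly Aq aa
    apply Finset.sum_congr rfl
    intro j _
    ring
  rw [Finset.sum_congr rfl h1, h]
  have h2 : ((m : ℚ) + 1) ≠ 0 := by positivity
  push_cast
  field_simp

theorem t_eq (n : ℕ) : t (n + 1)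
    = ((((-1) ^ (n + 1) * dd (n + 1) * dd n * (dd (n + 1) - 4 * dd n) : ℤ) : ℚ) / 4 ^ (3 * n + 1)) := by
  unfold t
  have h := t_form n
  have h1 : ∀ k ∈ range (n + 1), (2 * (k : ℚ) + 1) * (-1) ^ k * (dPoly k (-1 / 4)) ^ 3
      = (2 * (k : ℚ) + 1) * (-1) ^ k * (Dx (-1 / 4) k) ^ 3 := by
    intro k _
    have : dPoly k (-1 / 4) = Dx (-1 / 4) k := by
      unfold dPoly Dx aa
      rfl
    rw [this]
  rw [Finset.sum_congr rfl h1, h]
  have h2 : ((n : ℚ) + 1) ≠ 0 := by positivity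
  have e : ∀ y : ℚ, 1 / ((n : ℚ) + 1) ^ 2 * (((n : ℚ) + 1) ^ 2 * y) = y := by
    intro y; field_simp
  push_cast
  rw [e]

theorem red_two (N : ℤ) (e : ℕ) (hN : Odd N) :
    ((N : ℚ) / 2 ^ e).num = N ∧ ((N : ℚ) / 2 ^ e).den = 2 ^ e := by
  have h1 : Nat.Coprime N.natAbs ((2 : ℤ) ^ e).natAbs := by
    rw [Int.natAbs_pow]
    apply Nat.Coprime.pow_right
    have : Odd N.natAbs := Int.natAbs_odd.mpr hN
    exact Nat.coprime_two_right.mpr this
  have h2 : (0 : ℤ) < 2 ^ e := by positivity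
  have h3 := Rat.num_div_eq_of_coprime h2 h1
  have h4 := Rat.den_div_eq_of_coprime h2 h1
  push_cast at h3 h4
  exact ⟨h3, by exact_mod_cast h4⟩

theorem congr_of {N : ℕ} {A c : ℤ} {B : ℕ} (hB : B ≠ 0) (hco : Nat.Coprime B N)
    (h : (N : ℤ) ∣ A - c * B) : CongrMod N ((A : ℚ) / (B : ℚ)) c := by
  set r : ℚ := (A : ℚ) / (B : ℚ) with hr
  have hB' : (B : ℚ) ≠ 0 := by exact_mod_cast hB
  have hden : r.den ∣ B := by
    have : r = Rat.divInt A B := by rw [hr, Rat.divInt_eq_div]; push_cast; rfl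
    rw [this]
    have := Rat.den_dvd A (B : ℤ)
    exact_mod_cast this
  have hmul : r.num * (B : ℤ) = A * r.den := by
    have h1 : (r.num : ℚ) = r * r.den := (Rat.mul_den_eq_num r).symm
    have h2 : (r.num : ℚ) * B = A * r.den := by
      rw [h1, hr]; field_simp
    exact_mod_cast h2
  refine ⟨Nat.Coprime.coprime_dvd_left hden hco, ?_⟩
  have h3 : (N : ℤ) ∣ (r.num - c * r.den) * (B : ℤ) := by
    have : (r.num - c * r.den) * (B : ℤ) = r.den * (A - c * B) := by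
      linear_combination hmul
    rw [this]
    exact Dvd.dvd.mul_left h _
  have h4 : IsCoprime (N : ℤ) (B : ℤ) := Nat.isCoprime_iff_coprime.mpr hco.symm
  exact h4.dvd_of_dvd_mul_right h3

theorem result :
    (∀ n : ℕ, 1 ≤ n → (s n).den = 2 ^ (2 * padicValNat 2 n !) ∧
      (t n).den = 2 ^ (3 * (n - 1 + padicValNat 2 n !) - padicValNat 2 n)) ∧
    (∀ n : ℕ, 1 ≤ n → (Odd n → (s n).num ≡ 1 [ZMOD 12]) ∧ (Even n → (s n).num ≡ 7 [ZMOD 12])) ∧
    (∀ p : ℕ, p.Prime → p ≠ 2 → ∀ a : ℕ, 1 ≤ a → CongrMod p (s (p ^ a)) 1 ∧ CongrMod p (t (p ^ a)) 1) ∧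
    (∀ a : ℕ, 1 ≤ a → CongrMod 9 (s (3 ^ a)) 4 ∧ CongrMod 243 (t (3 ^ a)) (-8)) := by
  have h4pow : ∀ k : ℕ, (4 : ℚ) ^ k = 2 ^ (2 * k) := by intro k; rw [pow_mul]; norm_num
  have hw : ∀ n : ℕ, padicValNat 2 n ! = w2 n := by
    intro n; unfold w2; rw [Nat.factorization_def _ Nat.prime_two]
  have hs : ∀ m : ℕ, ∃ N : ℤ, s (m + 1) = (N : ℚ) / 2 ^ (2 * w2 (m + 1)) ∧ Odd N ∧ N % 3 = 1 ∧
      (Even m → N % 4 = 1) ∧ (¬ Even m → N % 4 = 3) := by
    intro m
    obtain ⟨N, hN, he, ho⟩ := SS_form m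
    have hwl := w2_le_pred m
    refine ⟨N, ?_, ?_, ?_, he, ho⟩
    · rw [s_eq, hN]
      push_cast
      have e : (4 : ℚ) ^ m = 4 ^ (m - w2 (m + 1)) * 4 ^ (w2 (m + 1)) := by
        rw [← pow_add]; congr 1; omega
      rw [e, ← h4pow]
      have h1 : (4 : ℚ) ^ (m - w2 (m + 1)) ≠ 0 := by positivity
      have h2 : (4 : ℚ) ^ (w2 (m + 1)) ≠ 0 := by positivity
      field_simp
    · rw [Int.odd_iff]
      rcases Classical.em (Even m) with h | h
      · have := he h; omega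
      · have := ho h; omega
    · have h3 := SS_mod3 m
      rw [hN] at h3
      push_cast at h3
      have h4 : (4 : ZMod 3) = 1 := rfl
      rw [h4, one_pow, one_mul] at h3
      have h5 : ((N : ℤ) : ZMod 3) = ((1 : ℤ) : ZMod 3) := by rw [h3]; simp
      rw [ZMod.intCast_eq_intCast_iff] at h5
      exact h5
  refine ⟨?_, ?_, ?_, ?_⟩
  · intro n hn
    obtain ⟨m, rfl⟩ := Nat.exists_eq_add_of_le' hn
    constructor
    · obtain ⟨N, hN, hodd, _⟩ := hs m
      rw [hN, (red_two N _ hodd).2, hw]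
    · obtain ⟨o, ho, hodd⟩ := num_two m
      rw [t_eq, ho]
      have hwl := w2_le_pred m
      have hwm := w2_le m
      have hsf := succ_fact m
      have hv : padicValNat 2 (m + 1) = (m + 1).factorization 2 := by
        rw [Nat.factorization_def _ Nat.prime_two]
      set E := 3 * (m + 1 - 1 + padicValNat 2 (m + 1)!) - padicValNat 2 (m + 1) with hE
      have hE2 : 2 * (3 * m + 1) = (2 * (m + 1 - w2 (m + 1)) + (m - w2 m)) + E := by
        rw [hE, hw, hv]; omega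
      have e1 : (((2 : ℤ) ^ (2 * (m + 1 - w2 (m + 1)) + (m - w2 m)) * o : ℤ) : ℚ) / 4 ^ (3 * m + 1)
          = (o : ℚ) / 2 ^ E := by
        rw [h4pow, hE2]
        push_cast
        rw [pow_add 2 _ E]
        have h1 : (2 : ℚ) ^ (2 * (m + 1 - w2 (m + 1)) + (m - w2 m)) ≠ 0 := by positivity
        have h2 : (2 : ℚ) ^ E ≠ 0 := by positivity
        field_simp
      rw [e1, (red_two o _ hodd).2]
  · intro n hn
    obtain ⟨m, rfl⟩ := Nat.exists_eq_add_of_le' hn
    obtain ⟨N, hN, hodd, h3, he, ho⟩ := hs m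
    rw [hN, (red_two N _ hodd).1]
    constructor
    · intro h
      have h1 : Even m := by
        rcases Nat.even_or_odd m with h2 | h2
        · exact h2
        · exact absurd h (Nat.not_odd_iff_even.mpr h2.add_one)
      have h4 := he h1
      unfold Int.ModEq
      omega
    · intro h
      have h1 : ¬ Even m := by
        intro h2
        exact (Nat.not_even_iff_odd.mpr h2.add_one) h
      have h4 := ho h1
      unfold Int.ModEq
      omega
  · intro p hp hp2 a ha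
    have : Fact p.Prime := ⟨hp⟩
    have hpos : 1 ≤ p ^ a := Nat.one_le_pow _ _ hp.pos
    obtain ⟨m, hm⟩ : ∃ m, m + 1 = p ^ a := ⟨p ^ a - 1, by omega⟩
    have hco4 : Nat.Coprime 4 p := by
      have : Nat.Coprime 2 p := (Nat.coprime_primes Nat.prime_two hp).mpr (Ne.symm hp2)
      exact (by norm_num : (4 : ℕ) = 2 ^ 2) ▸ Nat.Coprime.pow_left 2 this
    rw [← hm]
    constructor
    · rw [s_eq]
      have e : (4 : ℚ) ^ m = ((4 ^ m : ℕ) : ℚ) := by push_cast; rfl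
      rw [e]
      apply congr_of (by positivity) (Nat.Coprime.pow_left m hco4)
      have h1 := SS_modp hp2 a m hm
      rw [← ZMod.intCast_zmod_eq_zero_iff_dvd]
      push_cast
      rw [h1]; ring
    · rw [t_eq]
      have e : (4 : ℚ) ^ (3 * m + 1) = ((4 ^ (3 * m + 1) : ℕ) : ℚ) := by push_cast; rfl
      rw [e]
      apply congr_of (by positivity) (Nat.Coprime.pow_left _ hco4)
      have h1 := num_modp hp2 a m hm
      rw [← ZMod.intCast_zmod_eq_zero_iff_dvd]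
      rw [Int.cast_sub, h1]
      push_cast
      ring
  · intro a ha
    obtain ⟨b, rfl⟩ := Nat.exists_eq_add_of_le' ha
    have hpos : 1 ≤ 3 ^ b := Nat.one_le_pow _ _ (by norm_num)
    have hps : 3 ^ (b + 1) = 3 * 3 ^ b := by rw [pow_succ]; ring
    obtain ⟨m, hm⟩ : ∃ m, m + 1 = 3 ^ (b + 1) := ⟨3 ^ (b + 1) - 1, by omega⟩
    rw [← hm]
    constructor
    · rw [s_eq]
      have e : (4 : ℚ) ^ m = ((4 ^ m : ℕ) : ℚ) := by push_cast; rfl
      rw [e]
      apply congr_of (by positivity) (Nat.Coprime.pow_left m (by norm_num))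
      have h1 := SS_mod9 b m (by rw [hm, hps])
      have h2 : (((SS m - 4 * ((4 ^ m : ℕ) : ℤ) : ℤ)) : ZMod 9) = 0 := by
        push_cast
        rw [h1]; ring
      exact (ZMod.intCast_zmod_eq_zero_iff_dvd _ 9).mp h2
    · rw [t_eq]
      have e : (4 : ℚ) ^ (3 * m + 1) = ((4 ^ (3 * m + 1) : ℕ) : ℚ) := by push_cast; rfl
      rw [e]
      apply congr_of (by positivity) (Nat.Coprime.pow_left _ (by norm_num))
      rcases Nat.eq_zero_or_pos b with h0 | h0
      · subst h0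
        have : m = 2 := by norm_num at hm; omega
        subst this
        decide +kernel
      · obtain ⟨b', rfl⟩ := Nat.exists_eq_add_of_le' h0
        have h1 := num_mod243 b' m hm
        push_cast at h1 ⊢
        have e2 : ∀ x y : ℤ, x - -8 * y = x + 8 * y := by intro x y; ring
        rw [e2]
        exact h1

end Pool.Agent.Results.MP_dc1de5_nt.FullAnswer
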